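import Mathlib

/-!
# Germs of analytic functions at a point and algebraic functions
-/

set_option autoImplicit false

open Filter Set
open scoped Topology

namespace Pool.Agent.Y119.UP

/-- two elements, the first one transcendental -/
theorem alg_iff {R E : Type} [Field R] [Field E] [Algebra R E] {τ x : E} (hτ : Transcendental R τ) :
    IsAlgebraic (IntermediateField.adjoin R {τ}) x ↔
      ∃ P : MvPolynomial (Fin 2) R, P ≠ 0 ∧ MvPolynomial.aeval ![τ, x] P = 0 := by
  classical
  have h1 : AlgebraicIndependent R ![τ, x] ↔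
      Transcendental (IntermediateField.adjoin R {τ}) x := by
    have hne : (1 : Fin 2) ∉ ({0} : Set (Fin 2)) := by simp
    have h2 := AlgebraicIndepOn.insert_iff (R := R) (x := ![τ, x]) hne
    have huniv : insert (1 : Fin 2) ({0} : Set (Fin 2)) = Set.univ := by
      ext i
      fin_cases i <;> simp
    rw [huniv] at h2
    have h3 : AlgebraicIndepOn R ![τ, x] Set.univ ↔ AlgebraicIndependent R ![τ, x] :=
      algebraicIndependent_equiv' (Equiv.Set.univ (Fin 2)) rfl
    have h4 : AlgebraicIndepOn R ![τ, x] {0} := by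
      have h5 : (![τ, x] : Fin 2 → E) 0 = τ := rfl
      rw [AlgebraicIndepOn, algebraicIndependent_unique_type_iff]
      exact hτ
    rw [← h3, h2, IntermediateField.transcendental_adjoin_iff]
    have h6 : (![τ, x] : Fin 2 → E) '' {0} = {τ} := by simp
    have h7 : (![τ, x] : Fin 2 → E) 1 = x := rfl
    rw [h6, h7]
    exact ⟨fun h => h.2, fun h => ⟨h4, h⟩⟩
  have h8 : IsAlgebraic (IntermediateField.adjoin R {τ}) x ↔ ¬ AlgebraicIndependent R ![τ, x] := by
    rw [h1, Transcendental, not_not]
  rw [h8, algebraicIndependent_iff]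
  push Not
  exact ⟨fun ⟨P, h, h'⟩ => ⟨P, h', h⟩, fun ⟨P, h, h'⟩ => ⟨P, h', h⟩⟩

end Pool.Agent.Y119.UP
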